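import Pool.Agent.H15.FOS.Targets

/-!
# fos board, PLQ: a first order equation for the plane curve
helper33
-/

set_option autoImplicit false
open MvPolynomial SC Pool.Agent.H27.LV
open Pool.Agent.H84.SM (dp cr dt)
open Pool.Agent.H92.SF Pool.Agent.H3.SF Pool.Agent.H15.FOS

namespace Pool.Agent.H33.FOS

/-- homogeneity -/
theorem hom_scale {R S σ : Type} [CommRing R] [CommRing S] (f : R →+* S) (z : σ → S) (c : S)
    {p : MvPolynomial σ R} {d : ℕ} (hp : p.IsHomogeneous d) :
    eval₂Hom f (fun i => z i * c) p = eval₂Hom f z p * c ^ d := by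
  rw [coe_eval₂Hom, coe_eval₂Hom, eval₂_eq, eval₂_eq, Finset.sum_mul]
  refine Finset.sum_congr rfl fun m hm => ?_
  rw [mul_assoc]
  congr 1
  have h2 : ∑ i ∈ m.support, m i = d := by
    rw [← hp (mem_support_iff.mp hm), Finsupp.weight_apply, Finsupp.sum]
    refine Finset.sum_congr rfl fun i _ => ?_
    rw [Pi.one_apply, smul_eq_mul, mul_one]
  simp only [mul_pow]
  rw [Finset.prod_mul_distrib, Finset.prod_pow_eq_pow_sum, h2]

/-- the exponent `(j, i)` -/
noncomputable def ex (j i : ℕ) : Fin 2 →₀ ℕ := Finsupp.single 0 j + Finsupp.single 1 i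

theorem ex0 (j i : ℕ) : ex j i 0 = j := by
  simp [ex]

theorem ex1 (j i : ℕ) : ex j i 1 = i := by
  simp [ex]

theorem ex_eq (a : Fin 2 →₀ ℕ) : ex (a 0) (a 1) = a := by
  ext i
  fin_cases i
  · exact ex0 _ _
  · exact ex1 _ _

theorem hom_deg2 {R : Type} [CommRing R] {c : MvPolynomial (Fin 2) R} {n : ℕ}
    (hc : c.IsHomogeneous n) {a : Fin 2 →₀ ℕ} (ha : coeff a c ≠ 0) : a 0 + a 1 = n := by
  have h := hc ha
  rw [Finsupp.weight_apply, Finsupp.sum_fintype _ _ (by simp)] at h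
  simpa [Fin.sum_univ_two] using h

theorem hom_deg3 {R : Type} [CommRing R] {c : MvPolynomial (Fin 3) R} {n : ℕ}
    (hc : c.IsHomogeneous n) {a : Fin 3 →₀ ℕ} (ha : coeff a c ≠ 0) : a 0 + a 1 + a 2 = n := by
  have h := hc ha
  rw [Finsupp.weight_apply, Finsupp.sum_fintype _ _ (by simp)] at h
  simpa [Fin.sum_univ_three] using h

/-- evaluation of a binary form -/
theorem eval_form {R : Type} [CommRing R] (W : MvPolynomial (Fin 2) R) (n : ℕ)
    (hW : ∀ a, coeff a W ≠ 0 → a 0 + a 1 = n) (s t : R) :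
    eval ![s, t] W = ∑ j ∈ Finset.range (n + 1), coeff (ex j (n - j)) W * (s ^ j * t ^ (n - j)) := by
  classical
  have h1 : eval ![s, t] W = ∑ a ∈ W.support, coeff a W * (s ^ a 0 * t ^ a 1) := by
    rw [eval_eq']
    refine Finset.sum_congr rfl fun a _ => ?_
    rw [Fin.prod_univ_two]
    rfl
  rw [h1]
  refine Finset.sum_bij_ne_zero (fun a _ _ => a 0) (fun a ha _ => ?_) (fun a ha h a' ha' h' e => ?_)
    (fun j hj h => ?_) (fun a ha _ => ?_)
  · have := hW a (mem_support_iff.mp ha)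
    exact Finset.mem_range.2 (by omega)
  · have h2 := hW a (mem_support_iff.mp ha)
    have h3 := hW a' (mem_support_iff.mp ha')
    rw [← ex_eq a, ← ex_eq a', e]
    congr 1
    omega
  · have h2 : coeff (ex j (n - j)) W ≠ 0 := left_ne_zero_of_mul h
    refine ⟨ex j (n - j), mem_support_iff.mpr h2, ?_, ex0 _ _⟩
    rw [ex0, ex1]
    exact h
  · have h2 := hW a (mem_support_iff.mp ha)
    have h3 : n - a 0 = a 1 := by omega
    rw [h3, ex_eq]

/-- `T` goes to the third variable -/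
noncomputable def gT (k : Type) [Field k] : Polynomial k →+* MvPolynomial (Fin 3) k :=
  Polynomial.eval₂RingHom C (X 2)

/-- dehomogenisation is injective on forms -/
theorem dehom_ne {R : Type} [CommRing R] {q : MvPolynomial (Fin 3) R} {d : ℕ}
    (hq : q.IsHomogeneous d) (h0 : q ≠ 0) :
    eval₂Hom (C : R →+* MvPolynomial (Fin 2) R) ![1, X 0, X 1] q ≠ 0 := by
  classical
  intro h
  obtain ⟨b, hb⟩ := ne_zero_iff.mp h0
  have h1 : eval₂Hom (C : R →+* MvPolynomial (Fin 2) R) ![1, X 0, X 1] q =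
      ∑ a ∈ q.support, monomial (ex (a 1) (a 2)) (coeff a q) := by
    rw [coe_eval₂Hom, eval₂_eq']
    refine Finset.sum_congr rfl fun a _ => ?_
    rw [Fin.prod_univ_three]
    show C (coeff a q) * (1 ^ a 0 * X 0 ^ a 1 * X 1 ^ a 2) = _
    rw [one_pow, one_mul, X_pow_eq_monomial, X_pow_eq_monomial, monomial_mul, C_mul_monomial,
      one_mul, mul_one]
    rfl
  rw [h1] at h
  have h2 := congrArg (coeff (ex (b 1) (b 2))) h
  rw [coeff_sum, coeff_zero, Finset.sum_eq_single b] at h2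
  · rw [coeff_monomial, if_pos rfl] at h2
    exact hb h2
  · intro a ha hab
    rw [coeff_monomial, if_neg]
    intro he
    apply hab
    have e1 := congrArg (fun f => f 0) he
    have e2 := congrArg (fun f => f 1) he
    simp only [ex0, ex1] at e1 e2
    have d1 := hom_deg3 hq (mem_support_iff.mp ha)
    have d2 := hom_deg3 hq hb
    ext i
    fin_cases i
    · show a 0 = b 0
      omega
    · exact e1
    · exact e2
  · intro hbs
    exact absurd (mem_support_iff.mpr hb) hbs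

theorem Q1_ne {k : Type} [Field k] {q : MvPolynomial (Fin 3) (Polynomial k)} {d : ℕ}
    (hq : q.IsHomogeneous d) (h0 : q ≠ 0) : eval₂Hom (gT k) ![1, X 0, X 1] q ≠ 0 := by
  intro h
  obtain ⟨ψ, hψ⟩ : ∃ ψ : MvPolynomial (Fin 3) k →+* MvPolynomial (Fin 2) (Polynomial k),
      ψ = eval₂Hom (C.comp Polynomial.C) ![X 0, X 1, C Polynomial.X] := ⟨_, rfl⟩
  have h1 : ψ.comp (gT k) = C := by
    refine Polynomial.ringHom_ext (fun a => ?_) ?_
    · rw [RingHom.comp_apply, gT, Polynomial.coe_eval₂RingHom, Polynomial.eval₂_C, hψ, eval₂Hom_C]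
      rfl
    · rw [RingHom.comp_apply, gT, Polynomial.coe_eval₂RingHom, Polynomial.eval₂_X, hψ, eval₂Hom_X']
      rfl
  have h2 : ψ (eval₂Hom (gT k) ![1, X 0, X 1] q) =
      eval₂Hom (C : Polynomial k →+* MvPolynomial (Fin 2) (Polynomial k)) ![1, X 0, X 1] q := by
    rw [← h1, ← RingHom.comp_apply]
    congr 1
    refine MvPolynomial.ringHom_ext (fun a => ?_) (fun i => ?_)
    · rw [RingHom.comp_apply, eval₂Hom_C, eval₂Hom_C]
      rfl
    · rw [RingHom.comp_apply, eval₂Hom_X', eval₂Hom_X']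
      fin_cases i
      · exact map_one ψ
      · show ψ (X 0) = X 0
        rw [hψ, eval₂Hom_X']
        rfl
      · show ψ (X 1) = X 1
        rw [hψ, eval₂Hom_X']
        rfl
  rw [h, map_zero] at h2
  exact dehom_ne hq h0 h2.symm

theorem der_quot {k K : Type} [Field k] [Field K] [Algebra k K] (D : Derivation k K K)
    (a b : K) (hb : b ≠ 0) : b * D a - a * D b = D (a / b) * b ^ 2 := by
  have h1 : D (a / b * b) = D a := by rw [div_mul_cancel₀ _ hb]
  rw [Derivation.leibniz, smul_eq_mul, smul_eq_mul] at h1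
  rw [← h1]
  field_simp
  ring

theorem fos_PLQ (hHRP : T_HRP) : T_PLQ := by
  intro k F _ _ _ _ _ u E c n e hE hc0 hcn hci hch
  obtain ⟨P, hP⟩ : ∃ P : Polynomial F, P = ∑ j ∈ Finset.range (n + 1),
    Polynomial.C (((-1 : k) ^ j) • coeff (ex j (n - j)) c) * Polynomial.X ^ j := ⟨_, rfl⟩
  have hPc : ∀ j, P.coeff j =
      if j ∈ Finset.range (n + 1) then ((-1 : k) ^ j) • coeff (ex j (n - j)) c else 0 := by
    intro j
    rw [hP, Polynomial.finsetSum_coeff]
    simp only [Polynomial.coeff_C_mul, Polynomial.coeff_X_pow, mul_ite, mul_one, mul_zero]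
    rw [Finset.sum_ite_eq]
  have hPB : ∀ j, P.coeff j ∈ BB k u E e := by
    intro j
    rw [hPc]
    split_ifs
    · exact (BB k u E e).smul_mem _ ⟨hci _, hch _⟩
    · exact (BB k u E e).zero_mem
  have hP0 : P ≠ 0 := by
    obtain ⟨b, hb⟩ := ne_zero_iff.mp hc0
    intro h
    have h1 := hPc (b 0)
    have h2 := hom_deg2 hcn hb
    have h3 : n - b 0 = b 1 := by omega
    rw [h, Polynomial.coeff_zero, if_pos (Finset.mem_range.2 (by omega)), h3, ex_eq] at h1
    rcases smul_eq_zero.mp h1.symm with h4 | h4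
    · exact pow_ne_zero _ (neg_ne_zero.mpr one_ne_zero) h4
    · exact hb h4
  obtain ⟨N, q, hH⟩ := hHRP k F u E P e hE hP0 (fun j => (hPB j).1) (fun j => (hPB j).2)
  refine ⟨eval₂Hom (gT k) ![1, X 0, X 1] (q 0), Q1_ne (hH.hom 0 hH.pos) hH.ne, ?_⟩
  intro K _ _ D φ x W hx hx0 hV hW hDX
  have hWa : ∀ (a : Fin 2 →₀ ℕ) (b : Bb k u), (b : F) = coeff a c → coeff a W = φ b := by
    intro a b hb
    obtain ⟨h, c', hh, h1, h2⟩ := hV a
    have h3 : h * b = c' := by
      apply Subtype.ext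
      rw [← h1, ← hb]
      rfl
    rw [← h3, map_mul] at h2
    exact mul_left_cancel₀ hh h2
  have hWn : ∀ a, coeff a W ≠ 0 → a 0 + a 1 = n := by
    intro a ha
    by_contra hne
    have h1 : coeff a c = 0 := by
      by_contra h
      exact hne (hom_deg2 hcn h)
    apply ha
    rw [hWa a 0 (by rw [h1]; rfl), map_zero]
  obtain ⟨X', hX'⟩ : ∃ X', X' = x 1 / x 0 := ⟨_, rfl⟩
  obtain ⟨Y', hY'⟩ : ∃ Y', Y' = x 2 / x 0 := ⟨_, rfl⟩
  obtain ⟨t, ht⟩ : ∃ t, t = D Y' / D X' := ⟨_, rfl⟩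
  rw [← hX', ← hY', ← ht]
  rw [← hX'] at hDX
  -- the value at `(-t, 1)`
  obtain ⟨c', hc'⟩ : ∃ c', c' = D X' * x 0 ^ 2 := ⟨_, rfl⟩
  have hc'0 : c' ≠ 0 := by
    rw [hc']
    exact mul_ne_zero hDX (pow_ne_zero _ hx0)
  have e2 : cr x (fun i => D (x i)) 2 = c' := by
    show x 0 * D (x 1) - x 1 * D (x 0) = c'
    rw [hc', hX']
    exact der_quot D (x 1) (x 0) hx0
  have e1 : cr x (fun i => D (x i)) 1 = -t * c' := by
    show x 2 * D (x 0) - x 0 * D (x 2) = -t * c'
    have h1 := der_quot D (x 2) (x 0) hx0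
    rw [← hY'] at h1
    have h2 : t * D X' = D Y' := by
      rw [ht, div_mul_cancel₀ _ hDX]
    rw [hc', neg_mul, ← mul_assoc, h2, ← h1]
    ring
  have hWt : ∑ j ∈ Finset.range (n + 1), coeff (ex j (n - j)) W * (-t) ^ j = 0 := by
    rw [e1, e2, eval_form W n hWn] at hW
    have h1 : ∀ j ∈ Finset.range (n + 1), coeff (ex j (n - j)) W * ((-t * c') ^ j * c' ^ (n - j)) =
        coeff (ex j (n - j)) W * (-t) ^ j * c' ^ n := by
      intro j hj
      have h2 : c' ^ n = c' ^ j * c' ^ (n - j) := by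
        rw [← pow_add]
        congr 1
        have := Finset.mem_range.1 hj
        omega
      rw [h2, mul_pow]
      ring
    rw [Finset.sum_congr rfl h1, ← Finset.sum_mul] at hW
    exact (mul_eq_zero.mp hW).resolve_right (pow_ne_zero _ hc'0)
  -- the polynomial over the integral elements
  obtain ⟨cb, hcb⟩ : ∃ cb : ℕ → Bb k u, ∀ j, (cb j : F) = coeff (ex j (n - j)) c :=
    ⟨fun j => ⟨coeff (ex j (n - j)) c, hci _⟩, fun j => rfl⟩
  obtain ⟨PB, hPB'⟩ : ∃ PB : Polynomial (Bb k u), PB = ∑ j ∈ Finset.range (n + 1),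
    Polynomial.C (((-1 : k) ^ j) • cb j) * Polynomial.X ^ j := ⟨_, rfl⟩
  obtain ⟨ι, hι⟩ : ∃ ι : Polynomial (Bb k u) →+* Polynomial F,
    ι = Polynomial.mapRingHom ((Bb k u).val : Bb k u →+* F) := ⟨_, rfl⟩
  have hιinj : Function.Injective ι := by
    rw [hι]
    exact Polynomial.map_injective _ Subtype.val_injective
  have hιP : ι PB = P := by
    rw [hPB', hP, map_sum]
    refine Finset.sum_congr rfl fun j _ => ?_
    rw [map_mul, map_pow, hι, Polynomial.coe_mapRingHom, Polynomial.map_C, Polynomial.map_X, ← hcb]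
    rfl
  obtain ⟨ρ, hρ⟩ : ∃ ρ : Polynomial (Bb k u) →+* K,
    ρ = Polynomial.eval₂RingHom (φ : Bb k u →+* K) t := ⟨_, rfl⟩
  have hρP : ρ PB = 0 := by
    rw [hPB', map_sum, ← hWt]
    refine Finset.sum_congr rfl fun j _ => ?_
    rw [map_mul, map_pow, hρ, Polynomial.coe_eval₂RingHom, Polynomial.eval₂_C, Polynomial.eval₂_X,
      hWa _ (cb j) (hcb j)]
    show φ (((-1 : k) ^ j) • cb j) * t ^ j = φ (cb j) * (-t) ^ j
    rw [map_smul, Algebra.smul_def, map_pow, map_neg, map_one, neg_pow t]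
    ring
  obtain ⟨uB, huB⟩ : ∃ uB : Fin 3 → Bb k u, ∀ i, (uB i : F) = u i := by
    refine ⟨fun i => ⟨u i, ?_⟩, fun i => rfl⟩
    show Itg k u (u i)
    have h := ((aeval u : MvPolynomial (Fin 3) k →ₐ[k] F) :
      MvPolynomial (Fin 3) k →+* F).isIntegralElem_map (x := X i)
    simpa [Itg] using h
  obtain ⟨f2, hf2⟩ : ∃ f2 : Polynomial k →+* Polynomial (Bb k u),
    f2 = Polynomial.mapRingHom (algebraMap k (Bb k u)) := ⟨_, rfl⟩
  obtain ⟨u2, hu2⟩ : ∃ u2 : Fin 3 → Polynomial (Bb k u), u2 = fun i => Polynomial.C (uB i) :=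
    ⟨_, rfl⟩
  have hιe : ∀ p : MvPolynomial (Fin 3) (Polynomial k), ι (eval₂Hom f2 u2 p) =
      eval₂Hom (Polynomial.mapRingHom (algebraMap k F)) (fun i => Polynomial.C (u i)) p := by
    intro p
    rw [← RingHom.comp_apply]
    congr 1
    refine MvPolynomial.ringHom_ext (fun a => ?_) (fun i => ?_)
    · rw [RingHom.comp_apply, eval₂Hom_C, eval₂Hom_C, hι, hf2, Polynomial.coe_mapRingHom,
        Polynomial.coe_mapRingHom, Polynomial.coe_mapRingHom, Polynomial.map_map]
      rfl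
    · rw [RingHom.comp_apply, eval₂Hom_X', eval₂Hom_X', hι, hu2, Polynomial.coe_mapRingHom,
        Polynomial.map_C, ← huB i]
      rfl
  have heq : PB ^ N + ∑ i ∈ Finset.range N, eval₂Hom f2 u2 (q i) * PB ^ i = 0 := by
    apply hιinj
    rw [map_zero, map_add, map_pow, map_sum, hιP, ← hH.eq]
    congr 1
    refine Finset.sum_congr rfl fun i _ => ?_
    rw [map_mul, map_pow, hιe, hιP]
  have h0 : ρ (eval₂Hom f2 u2 (q 0)) = 0 := by
    have h1 := congrArg ρ heq
    rw [map_zero, map_add, map_pow, hρP, zero_pow hH.pos.ne', zero_add, map_sum,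
      Finset.sum_eq_single 0] at h1
    · rw [map_mul, pow_zero, map_one, mul_one] at h1
      exact h1
    · intro i _ hi
      rw [map_mul, map_pow, hρP, zero_pow hi, mul_zero]
    · intro h
      exact absurd (Finset.mem_range.2 hH.pos) h
  obtain ⟨ev, hev⟩ : ∃ ev : Polynomial k →+* K,
    ev = Polynomial.eval₂RingHom (algebraMap k K) t := ⟨_, rfl⟩
  have hρe : ∀ p : MvPolynomial (Fin 3) (Polynomial k), ρ (eval₂Hom f2 u2 p) =
      eval₂Hom ev x p := by
    intro p
    rw [← RingHom.comp_apply]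
    congr 1
    refine MvPolynomial.ringHom_ext (fun a => ?_) (fun i => ?_)
    · rw [RingHom.comp_apply, eval₂Hom_C, eval₂Hom_C, ← RingHom.comp_apply]
      congr 1
      refine Polynomial.ringHom_ext (fun r => ?_) ?_
      · rw [RingHom.comp_apply, hf2, Polynomial.coe_mapRingHom, Polynomial.map_C, hρ, hev,
          Polynomial.coe_eval₂RingHom, Polynomial.coe_eval₂RingHom, Polynomial.eval₂_C,
          Polynomial.eval₂_C]
        exact φ.commutes r
      · rw [RingHom.comp_apply, hf2, Polynomial.coe_mapRingHom, Polynomial.map_X, hρ, hev,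
          Polynomial.coe_eval₂RingHom, Polynomial.coe_eval₂RingHom, Polynomial.eval₂_X,
          Polynomial.eval₂_X]
    · rw [RingHom.comp_apply, eval₂Hom_X', eval₂Hom_X', hu2, hρ, Polynomial.coe_eval₂RingHom,
        Polynomial.eval₂_C]
      exact hx i (uB i) (huB i)
  have hxs : x = fun i => (![1, X', Y'] : Fin 3 → K) i * x 0 := by
    funext i
    fin_cases i
    · show x 0 = 1 * x 0
      rw [one_mul]
    · show x 1 = X' * x 0
      rw [hX', div_mul_cancel₀ _ hx0]
    · show x 2 = Y' * x 0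
      rw [hY', div_mul_cancel₀ _ hx0]
  rw [hρe, hxs, hom_scale ev _ (x 0) (hH.hom 0 hH.pos)] at h0
  have h1 := (mul_eq_zero.mp h0).resolve_right (pow_ne_zero _ hx0)
  rw [← h1]
  have h2 : ∀ p : MvPolynomial (Fin 3) (Polynomial k),
      aeval ![X', Y', t] (eval₂Hom (gT k) ![1, X 0, X 1] p) = eval₂Hom ev ![1, X', Y'] p := by
    intro p
    have h3 : ((aeval ![X', Y', t] : MvPolynomial (Fin 3) k →ₐ[k] K) :
        MvPolynomial (Fin 3) k →+* K).comp (eval₂Hom (gT k) ![1, X 0, X 1]) =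
        eval₂Hom ev ![1, X', Y'] := by
      refine MvPolynomial.ringHom_ext (fun a => ?_) (fun i => ?_)
      · rw [RingHom.comp_apply, eval₂Hom_C, eval₂Hom_C, ← RingHom.comp_apply]
        congr 1
        refine Polynomial.ringHom_ext (fun r => ?_) ?_
        · rw [RingHom.comp_apply, gT, Polynomial.coe_eval₂RingHom, Polynomial.eval₂_C, hev,
            Polynomial.coe_eval₂RingHom, Polynomial.eval₂_C]
          exact aeval_C _ _
        · rw [RingHom.comp_apply, gT, Polynomial.coe_eval₂RingHom, Polynomial.eval₂_X, hev,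
            Polynomial.coe_eval₂RingHom, Polynomial.eval₂_X]
          exact aeval_X _ _
      · rw [RingHom.comp_apply, eval₂Hom_X', eval₂Hom_X']
        fin_cases i
        · exact map_one _
        · exact aeval_X _ _
        · exact aeval_X _ _
    rw [← h3]
    rfl
  exact h2 (q 0)

end Pool.Agent.H33.FOS
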