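import Pool.Agent.H15.FOS.Targets
import Pool.Agent.H92.OD.All
import Pool.Agent.H3.OD.Asm
import Pool.Agent.H64.SC.Api

/-!
# fos board, RMF: bounded contact, fields of bounded degree over the field of the plane curve
helper33, adapted from H3/OD/RAM
-/

set_option autoImplicit false
open MvPolynomial SC Pool.Agent.H27.LV
open Pool.Agent.H84.SM (dp cr dt)
open Pool.Agent.H92.SF Pool.Agent.H3.SF Pool.Agent.H15.FOS
open Pool.Agent.H92.OD (HS cf sg uu Lat geO IsO DF DD ev)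

namespace Pool.Agent.H33.FOS

/-- two terms of a vanishing sum have the same order -/
theorem two_terms {k K : Type} [Field k] [Field K] [Algebra k K] (v : DV k K) (s : Finset ℕ)
    (f : ℕ → K) (hs : ∑ i ∈ s, f i = 0) (hne : ∃ i ∈ s, f i ≠ 0) :
    ∃ i ∈ s, ∃ j ∈ s, i < j ∧ f i ≠ 0 ∧ f j ≠ 0 ∧ v.ord (f i) = v.ord (f j) := by
  classical
  obtain ⟨i1, hi1, hf1⟩ := hne
  obtain ⟨i0, hi0, hmin⟩ := Finset.exists_min_image (s.filter fun i => f i ≠ 0)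
    (fun i => v.ord (f i)) ⟨i1, Finset.mem_filter.2 ⟨hi1, hf1⟩⟩
  obtain ⟨h0s, h0f⟩ := Finset.mem_filter.1 hi0
  by_contra hcon
  push Not at hcon
  have hgt : ∀ j ∈ s.erase i0, f j ≠ 0 → v.ord (f i0) + 1 ≤ v.ord (f j) := by
    intro j hj hfj
    obtain ⟨hne', hjs⟩ := Finset.mem_erase.1 hj
    have h1 := hmin j (Finset.mem_filter.2 ⟨hjs, hfj⟩)
    have h2 : v.ord (f i0) ≠ v.ord (f j) := by
      intro h3
      rcases lt_or_gt_of_ne hne' with h4 | h4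
      · exact hcon j hjs i0 h0s h4 hfj h0f h3.symm
      · exact hcon i0 h0s j hjs h4 h0f hfj h3
    omega
  rw [← Finset.add_sum_erase s f h0s] at hs
  refine (v.ord_add_eq_left h0f fun hr => ?_).1 hs
  have h5 := v.ord_sum_ge (s.erase i0) f hgt hr
  omega

theorem fos_RMF : T_RMF := by
  intro k _ _ _ Q1 a b hQ1
  obtain ⟨Qx, Qy, hQx, hQy, helm⟩ := Pool.Agent.H3.OD.elm k Q1 a b hQ1
  obtain ⟨qx, hqx, hx⟩ := Pool.Agent.H92.OD.t3 k Qx hQx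
  obtain ⟨qy, hqy, hy⟩ := Pool.Agent.H92.OD.t3 k Qy hQy
  refine ⟨qx * qy, ?_⟩
  intro K _ _ _ htr N X Y D hdep hDX hQ hb v
  obtain ⟨u, hu⟩ : ∃ u, u = aeval ![X, Y] a / aeval ![X, Y] b := ⟨_, rfl⟩
  rw [← hu]
  by_contra hcon
  push Not at hcon
  have hq0 : 0 < qx * qy := Nat.mul_pos hqx hqy
  have hqN : (0 : ℤ) ≤ ((qx * qy : ℕ) : ℤ) * (N : ℤ) := by positivity
  obtain ⟨n, hn⟩ : ∃ n : ℕ, v.ord u = n :=
    ⟨(v.ord u).toNat, (Int.toNat_of_nonneg (by omega)).symm⟩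
  have hn0 : 0 < n := by
    rw [hn] at hcon
    omega
  have hu0 : u ≠ 0 := by
    rintro rfl
    rw [v.ord_zero] at hn
    omega
  have hD0 : D ≠ 0 := by
    rintro rfl
    exact hDX rfl
  have hDu : D u ≠ 0 := by
    intro h
    obtain ⟨c, hc⟩ := Pool.Agent.H27.LV.ker k K htr D hD0 u h
    rw [← hc, v.ord_base] at hn
    omega
  obtain ⟨D', hD'⟩ : ∃ D' : Derivation k K K, ∀ z, D' z = u / D u * D z :=
    ⟨(u / D u) • D, fun z => rfl⟩
  have hq1 : u / D u ≠ 0 := div_ne_zero hu0 hDu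
  have hD'u : D' u = u := by rw [hD', div_mul_cancel₀ _ hDu]
  have hD'X : D' X ≠ 0 := by
    rw [hD']
    exact mul_ne_zero hq1 hDX
  have hrat : D' Y / D' X = D Y / D X := by
    rw [hD', hD', mul_div_mul_left _ _ hq1]
  obtain ⟨h1, h2⟩ := helm K X Y u D' hD'X (by rw [hrat]; exact hQ) hb hu hu0 hD'u
  obtain ⟨φ, hφu, hφ, hφD⟩ := Pool.Agent.H3.OD.brg k K htr v u n hn0 hn
  have hlx : Lat qx (φ X) := hx (φ X) ⟨n, hn0, hφ.lat X⟩
    (Pool.Agent.H3.OD.ev_emb φ u X (D' X) hφu (hφD D' hD'u X) Qx h1)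
  have hly : Lat qy (φ Y) := hy (φ Y) ⟨n, hn0, hφ.lat Y⟩
    (Pool.Agent.H3.OD.ev_emb φ u Y (D' Y) hφu (hφD D' hD'u Y) Qy h2)
  obtain ⟨L, hL⟩ := Pool.Agent.H3.OD.ltn k (qx * qy) hq0
  have hall : ∀ z ∈ IntermediateField.adjoin k {X, Y}, φ z ∈ L := by
    intro z hz
    have h3 : IntermediateField.adjoin k {X, Y} ≤ L.comap φ := by
      rw [IntermediateField.adjoin_le_iff]
      rintro w (rfl | rfl)
      · exact (hL _).2 (Pool.Agent.H3.OD.lat_mul_left hlx)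
      · exact (hL _).2 (Pool.Agent.H3.OD.lat_mul_right hly)
    exact h3 hz
  -- two terms of the equation of the uniformizer
  obtain ⟨α, hα, ⟨i1, hi1, hα1⟩, hsum⟩ := hdep v.unif
  have hun := v.unif_ne_zero
  obtain ⟨i, hi, j, hj, hij, hfi, hfj, hord⟩ := two_terms v (Finset.range (N + 1))
    (fun i => α i * v.unif ^ i) hsum ⟨i1, Finset.mem_range.2 (by omega),
      mul_ne_zero hα1 (pow_ne_zero _ hun)⟩
  have hαi : α i ≠ 0 := left_ne_zero_of_mul hfi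
  have hαj : α j ≠ 0 := left_ne_zero_of_mul hfj
  rw [v.ord_mul _ _ hαi (pow_ne_zero _ hun), v.ord_mul _ _ hαj (pow_ne_zero _ hun),
    v.ord_unif_pow, v.ord_unif_pow] at hord
  have hjN : j ≤ N := by
    have := Finset.mem_range.1 hj
    omega
  obtain ⟨z, hz⟩ : ∃ z, z = α i / α j := ⟨_, rfl⟩
  have hz0 : z ≠ 0 := by
    rw [hz]
    exact div_ne_zero hαi hαj
  have hzo : v.ord z = (j : ℤ) - i := by
    rw [hz, v.ord_div hαi hαj]
    omega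
  have hzL : φ z ∈ L := by
    refine hall z ?_
    rw [hz]
    exact div_mem (hα i) (hα j)
  have h4 := hφ.ord z hz0
  obtain ⟨m, hm⟩ := (hL _).1 hzL _ h4.1
  have hnQ : (n : ℚ) ≠ 0 := Nat.cast_ne_zero.2 hn0.ne'
  have h5 : ((j : ℤ) - i) * ((qx * qy : ℕ) : ℤ) = m * n := by
    have h6 : (((j : ℤ) - i : ℤ) : ℚ) * ((qx * qy : ℕ) : ℚ) = m * n := by
      rw [← hm, hzo]
      field_simp
    exact_mod_cast h6
  have hdvd : (n : ℤ) ∣ ((j : ℤ) - i) * ((qx * qy : ℕ) : ℤ) := ⟨m, by rw [h5]; ring⟩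
  have hji : (1 : ℤ) ≤ (j : ℤ) - i := by omega
  have hqpos : (0 : ℤ) < ((qx * qy : ℕ) : ℤ) := by exact_mod_cast hq0
  have h7 : (n : ℤ) ≤ ((j : ℤ) - i) * ((qx * qy : ℕ) : ℤ) :=
    Int.le_of_dvd (mul_pos (by omega) hqpos) hdvd
  have h8 : ((j : ℤ) - i) * ((qx * qy : ℕ) : ℤ) ≤ (N : ℤ) * ((qx * qy : ℕ) : ℤ) :=
    mul_le_mul_of_nonneg_right (by omega) hqpos.le
  rw [hn] at hcon
  rw [mul_comm (N : ℤ)] at h8
  omega

end Pool.Agent.H33.FOS
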